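import Pool.Agent.Lib.MP_65fa9b_an_c.Loc
import Pool.Agent.Lib.MP_65fa9b_anFD.Answer

/-!
# Lipschitz spaces over non-porous subsets of Banach spaces: the positive answer
-/

set_option autoImplicit false

open Pool.Agent.Lib.MP_65fa9b_an

namespace Pool.Agent.Results.MP_65fa9b_an.AllBanachSpaces

universe u

/-- For every real Banach space `X` (more generally, for every real normed space, of any dimension
and density) and every subset `M` of `X` which is not porous in `X`, the space `Lip₀(M)` is
linearly isomorphic to `Lip₀(X)`, for all base points `p ∈ M` and `q ∈ X`. -/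
theorem result (X : Type u) [NormedAddCommGroup X] [NormedSpace ℝ X]
    (M : Set X) (hM : ¬ Porous M) (p : M) (q : X) : Nonempty (Lip0 M p ≃L[ℝ] Lip0 X q) :=
  Pool.Agent.Lib.MP_65fa9b_anFD.answer
    (fun hX => Pool.Agent.Lib.MP_65fa9b_an_c.localCondition_infDim hX) hM p q

end Pool.Agent.Results.MP_65fa9b_an.AllBanachSpaces
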